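import Pool.Agent.Helper90.TS.Stmts

/-!
# Module AHL: homogeneity of `Q = dcl Q0`
-/

set_option autoImplicit false

namespace Pool.Agent.Helper90.TS

variable {V G : Type} [Group G] [MulAction G V]

theorem ahl_tr {f : G} {Q0 : Set V} (h : tr f Q0 = Q0) : tr f⁻¹ Q0 = Q0 := by
  ext x
  rw [mem_tr, inv_inv]
  constructor
  · intro hx
    rw [← h, mem_tr] at hx
    rwa [inv_smul_smul] at hx
  · intro hx
    rw [← h, mem_tr, inv_smul_smul]
    exact hx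

theorem ahl_smul {f : G} {Q0 Q : Set V} (h : tr f Q0 = Q0)
    (h3 : ∀ x ∈ Q, ∃ (m : ℕ) (u : Fin m → V), Set.range u ⊆ Q0 ∧ ∀ g : G, g • u = u → g • x = x)
    (h4 : ∀ (m : ℕ) (u : Fin m → V) (x : V), Set.range u ⊆ Q0 → (∀ g : G, g • u = u → g • x = x) →
      x ∈ Q) {x : V} (hx : x ∈ Q) : f • x ∈ Q := by
  obtain ⟨m, u, hu, hux⟩ := h3 x hx
  refine h4 m (f • u) (f • x) ?_ ?_
  · rintro _ ⟨i, rfl⟩
    rw [← h, mem_tr]
    change f⁻¹ • (f • u i) ∈ Q0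
    rw [inv_smul_smul]
    exact hu ⟨i, rfl⟩
  · intro g hg
    have h1 : (f⁻¹ * g * f) • u = u := by
      rw [mul_smul, mul_smul, hg, inv_smul_smul]
    have h2 := hux _ h1
    rw [mul_smul, mul_smul, inv_smul_eq_iff] at h2
    exact h2

theorem ahl_trQ {f : G} {Q0 Q : Set V} (h : tr f Q0 = Q0)
    (h3 : ∀ x ∈ Q, ∃ (m : ℕ) (u : Fin m → V), Set.range u ⊆ Q0 ∧ ∀ g : G, g • u = u → g • x = x)
    (h4 : ∀ (m : ℕ) (u : Fin m → V) (x : V), Set.range u ⊆ Q0 → (∀ g : G, g • u = u → g • x = x) →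
      x ∈ Q) : tr f Q = Q := by
  ext x
  rw [mem_tr]
  constructor
  · intro hx
    have := ahl_smul h h3 h4 hx
    rwa [smul_inv_smul] at this
  · intro hx
    exact ahl_smul (ahl_tr h) h3 h4 hx

/-- common tuple of parameters -/
theorem ahl_par {Q0 Q : Set V}
    (h3 : ∀ x ∈ Q, ∃ (m : ℕ) (u : Fin m → V), Set.range u ⊆ Q0 ∧ ∀ g : G, g • u = u → g • x = x)
    {k : ℕ} (b : Fin k → V) (hb : Set.range b ⊆ Q) :
    ∃ (l : ℕ) (u : Fin l → V), Set.range u ⊆ Q0 ∧ ∀ g : G, g • u = u → g • b = b := by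
  have h : ∀ i : Fin k, ∃ (m : ℕ) (u : Fin m → V), Set.range u ⊆ Q0 ∧
      ∀ g : G, g • u = u → g • b i = b i := fun i => h3 (b i) (hb ⟨i, rfl⟩)
  choose m u hu hub using h
  let e : Fin (Fintype.card (Σ i : Fin k, Fin (m i))) ≃ Σ i : Fin k, Fin (m i) :=
    (Fintype.equivFin _).symm
  refine ⟨_, fun j => u (e j).1 (e j).2, ?_, ?_⟩
  · rintro _ ⟨j, rfl⟩
    exact hu _ ⟨_, rfl⟩
  · intro g hg
    have h5 : ∀ p : (Σ i : Fin k, Fin (m i)), g • u p.1 p.2 = u p.1 p.2 := by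
      intro p
      obtain ⟨j, rfl⟩ := e.surjective p
      exact congrFun hg j
    funext i
    apply hub i g
    funext j
    exact h5 ⟨i, j⟩

theorem st_AHL (hISO : ST_ISO) (hDCLF : ST_DCLF) : ST_AHL := by
  intro V G _ _ X U0 Q0 Q A hQ hA hacl hQU hQQ h1 h2 h3 h4 h5 h6 k b b' hb hb' hbb'
  obtain ⟨g, hg, hgb⟩ := hbb'
  obtain ⟨l, u, hu, hub⟩ := ahl_par (G := G) h3 b hb
  obtain ⟨W, hW, huW, hWf⟩ := hDCLF V G X (Fin l) (Fin k) u b hub
  -- the bounded set of tuples of U0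
  have hB : ∀ i : Fin l, ∃ B : Set (Unit → V), X.Ov (∅ : Set V) B ∧ (fun _ => u i) ∈ B ∧
      ∀ y ∈ B, y () ∈ U0 := fun i => h2 (u i) (hQU (hu ⟨i, rfl⟩))
  choose Bi hBi huBi hBiU using hB
  obtain ⟨B', hB', huB'⟩ := ov_sort (X := X) u
  set P : Fin l → Set (Fin l → V) := fun i => {x | x ∈ B' ∧ x ∘ (fun _ : Unit => i) ∈ Bi i} with hP
  have hPo : ∀ i, X.Ov (∅ : Set V) (P i) := fun i => ov_sub (hBi i) hB' _
  set D2 : Set (Fin l → V) := B' \ ⋃ i, (B' \ P i) with hD2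
  have hD2o : X.Ov (∅ : Set V) D2 := ov_diff hB' (ov_iUnion fun i => ov_diff hB' (hPo i))
  have hD2mem : ∀ x : Fin l → V, x ∈ D2 → ∀ i, x i ∈ U0 := by
    intro x hx i
    have hx' : x ∈ P i := by
      by_contra hc
      exact hx.2 (Set.mem_iUnion.mpr ⟨i, hx.1, hc⟩)
    exact hBiU i _ hx'.2
  have huD2 : u ∈ D2 := by
    refine ⟨huB', ?_⟩
    rw [Set.mem_iUnion]
    rintro ⟨i, _, hi⟩
    exact hi ⟨huB', huBi i⟩
  set D1 : Set (Fin l → V) := {v | Sum.elim v b ∈ W} ∩ D2 with hD1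
  have hD1o : X.Ov (Set.range b) D1 :=
    ov_inter (ov_secr' (ov_mono X (Set.empty_subset _) hW) (a := b) subset_rfl)
      (ov_mono X (Set.empty_subset _) hD2o)
  set B : Set V := acl G A ∪ Set.range b with hBdef
  have hBQ : B ⊆ Q := Set.union_subset hacl hb
  have hBc : B.Countable := hQ.mono hBQ
  obtain ⟨E, hED, hEo, hEne, hEe⟩ := hISO V G X B hBc (Fin l) D1
    (ov_mono X Set.subset_union_right hD1o) ⟨u, huW, huD2⟩
  obtain ⟨u1, hu1E, hu1Q⟩ := h5 l E (ov_mono X hBQ hEo) hEne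
    (fun x hx i => hD2mem x (hED hx).2 i)
  -- the translate of E
  have hgE := ov_smul hEo g⁻¹
  rw [inv_inv] at hgE
  have htr : tr g B ⊆ Q := by
    rw [hBdef, tr_union, tr_fx hg, tr_range, hgb]
    exact Set.union_subset hacl hb'
  obtain ⟨u1', hu1'E, hu1'Q⟩ := h5 l {x | g⁻¹ • x ∈ E} (ov_mono X htr hgE)
    ⟨g • u1, by
      change g⁻¹ • (g • u1) ∈ E
      rwa [inv_smul_smul]⟩
    (by
      intro x hx i
      have h7 := h1 g _ (hD2mem _ (hED hx).2 i)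
      have h8 : g • (g⁻¹ • x) i = x i := by
        change g • (g⁻¹ • x i) = x i
        rw [smul_inv_smul]
      rwa [h8] at h7)
  obtain ⟨κ, hκ, hκu⟩ := hEe u1 hu1E _ hu1'E
  have hgκ : (g * κ) • u1 = u1' := by rw [mul_smul, hκu, smul_inv_smul]
  have hκb : κ • b = b := fx_range.mp (fx_anti Set.subset_union_right hκ)
  have hgκb : (g * κ) • b = b' := by rw [mul_smul, hκb, hgb]
  have hgκA : g * κ ∈ Fx G (acl G A) :=
    mul_mem hg (fx_anti Set.subset_union_left hκ)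
  obtain ⟨f, hfA, hfQ0, hfu⟩ := h6 l u1 u1' (by rintro _ ⟨i, rfl⟩; exact hu1Q i)
    (by rintro _ ⟨i, rfl⟩; exact hu1'Q i) ⟨g * κ, hgκA, hgκ⟩
  refine ⟨f, hfA, ahl_trQ hfQ0 h3 h4, ?_⟩
  have hW1 : Sum.elim u1 b ∈ W := (hED hu1E).1
  have hWinv : ∀ h : G, Sum.elim (h • u1) (h • b) ∈ W := by
    intro h
    have h9 := hW.2 h (by rw [fx_empty]; exact Subgroup.mem_top h) _ hW1
    rwa [smul_elim] at h9
  have hWf1 := hWinv f
  have hWf2 := hWinv (g * κ)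
  rw [hfu] at hWf1
  rw [hgκ, hgκb] at hWf2
  exact hWf _ _ _ hWf1 hWf2

end Pool.Agent.Helper90.TS
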